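import Mathlib

/-!
# Packet L8 for MP_d69e80_al

An algebra generated by finitely many triangular operators with integral diagonal entries
is a finite module over the integers.
-/

namespace Pool.Agent.Helper95.TL

universe u

open Module

theorem flag_invariant {k : Type u} {W κ : Type*} [Field k] [AddCommGroup W] [Module k W]
    (g : κ → Module.End k W) (F : ℕ → Submodule k W) (a : ℕ → κ → k) (h0 : F 0 = ⊥)
    (hmono : ∀ i, F i ≤ F (i + 1))
    (hfl : ∀ i, ∀ x : κ, ∀ v ∈ F (i + 1), g x v - a i x • v ∈ F i) (i : ℕ) (x : κ) (v : W)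
    (hv : v ∈ F i) : g x v ∈ F i := by
  cases i with
  | zero =>
    rw [h0, Submodule.mem_bot] at hv ⊢
    simp [hv]
  | succ i =>
    have h1 := hmono i (hfl i x v hv)
    have h2 : g x v = (g x v - a i x • v) + a i x • v := by abel
    rw [h2]
    exact Submodule.add_mem _ h1 (Submodule.smul_mem _ _ hv)

theorem finite_adjoin_of_flag {k : Type u} {W κ : Type*} [Field k] [AddCommGroup W] [Module k W]
    [Finite κ] (g : κ → Module.End k W) (m : ℕ) (F : ℕ → Submodule k W) (a : ℕ → κ → k)
    (h0 : F 0 = ⊥) (hm : F m = ⊤) (hmono : ∀ i, F i ≤ F (i + 1))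
    (hfl : ∀ i, ∀ x : κ, ∀ v ∈ F (i + 1), g x v - a i x • v ∈ F i)
    (hint : ∀ i < m, ∀ x : κ, IsIntegral ℤ (a i x)) :
    Module.Finite ℤ (Algebra.adjoin ℤ (Set.range g)) := by
  induction m generalizing W with
  | zero =>
    have hsub : Subsingleton W := by
      rw [← Submodule.subsingleton_iff k]
      exact ⟨fun p q => by
        have hb : (⊥ : Submodule k W) = ⊤ := by rw [← h0, hm]
        have hp : p = ⊥ := le_antisymm (by rw [hb]; exact le_top) bot_le
        have hq : q = ⊥ := le_antisymm (by rw [hb]; exact le_top) bot_le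
        rw [hp, hq]⟩
    have : Subsingleton (Module.End k W) := inferInstance
    have : Subsingleton (Algebra.adjoin ℤ (Set.range g)) := inferInstance
    infer_instance
  | succ m ih =>
    have hinv : ∀ x, ∀ v ∈ F m, g x v ∈ F m := fun x v hv =>
      flag_invariant g F a h0 hmono hfl m x v hv
    set g' : κ → Module.End k (F m) := fun x => (g x).restrict (hinv x) with hg'
    have hA' : Module.Finite ℤ (Algebra.adjoin ℤ (Set.range g')) := by
      refine ih g' (fun i => (F i).comap (F m).subtype) ?_ ?_ ?_ ?_ ?_
      · simp [h0]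
      · exact Submodule.comap_subtype_self (F m)
      · intro i
        exact Submodule.comap_mono (hmono i)
      · intro i x v hv
        exact hfl i x v hv
      · intro i hi x
        exact hint i (by omega) x
    set A' := Algebra.adjoin ℤ (Set.range g') with hA'def
    have hA'fg : (Subalgebra.toSubmodule A').FG :=
      (Module.Finite.iff_fg (N := Subalgebra.toSubmodule A')).1 hA'
    set O := Algebra.adjoin ℤ (Set.range (a m)) with hOdef
    have hO : (Subalgebra.toSubmodule O).FG :=
      fg_adjoin_of_finite (Set.finite_range _) (by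
        rintro _ ⟨x, rfl⟩
        exact hint m (by omega) x)
    have hfl' : ∀ x v, (g x - a m x • (1 : Module.End k W)) v ∈ F m := fun x v => by
      have := hfl m x v (by rw [hm]; trivial)
      simpa using this
    set δ : κ → (W →ₗ[k] F m) := fun x =>
      (g x - a m x • (1 : Module.End k W)).codRestrict (F m) (hfl' x) with hδ
    set B : κ → (k →ₗ[ℤ] Module.End k (F m) →ₗ[ℤ] Module.End k W) := fun x =>
      LinearMap.mk₂ ℤ (fun o α => o • ((F m).subtype ∘ₗ α ∘ₗ δ x))
        (fun o o' α => add_smul _ _ _)
        (fun c o α => smul_assoc _ _ _)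
        (fun o α α' => by simp [LinearMap.add_comp, LinearMap.comp_add])
        (fun c o α => by
          rw [smul_comm c o]
          congr 1) with hB
    set M : Submodule ℤ (Module.End k W) :=
      ⨆ x, Submodule.map₂ (B x) (Subalgebra.toSubmodule O) (Subalgebra.toSubmodule A') with hM
    set s : k →ₗ[ℤ] Module.End k W :=
      { toFun := fun o => o • (1 : Module.End k W)
        map_add' := fun o o' => add_smul _ _ _
        map_smul' := fun c o => smul_assoc _ _ _ } with hs
    set N : Submodule ℤ (Module.End k W) := (Subalgebra.toSubmodule O).map s with hN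
    have hT : (N ⊔ M).FG := by
      refine Submodule.FG.sup (hO.map s) ?_
      exact Submodule.fg_iSup _ (fun x => Submodule.FG.map₂ (B x) hO hA'fg)
    have h1T : (1 : Module.End k W) ∈ N ⊔ M := by
      refine Submodule.mem_sup_left ?_
      exact ⟨1, O.one_mem, by simp [hs]⟩
    have hgT : ∀ x, ∀ t ∈ N ⊔ M, g x * t ∈ N ⊔ M := by
      intro x
      have hle : N ⊔ M ≤ (N ⊔ M).comap (LinearMap.mulLeft ℤ (g x)) := by
        refine sup_le ?_ ?_
        · rintro _ ⟨o, ho, rfl⟩
          rw [Submodule.mem_comap]
          have e : (LinearMap.mulLeft ℤ (g x)) (s o) = s (o * a m x) + B x o 1 := by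
            ext v
            simp [hs, hB, hδ, mul_smul, smul_sub]
          rw [e]
          refine Submodule.add_mem_sup ?_ ?_
          · exact ⟨o * a m x, O.mul_mem ho (Algebra.subset_adjoin ⟨x, rfl⟩), rfl⟩
          · exact Submodule.mem_iSup_of_mem x (Submodule.apply_mem_map₂ _ ho A'.one_mem)
        · refine iSup_le fun y => Submodule.map₂_le.2 fun o ho α hα => ?_
          rw [Submodule.mem_comap]
          have e : (LinearMap.mulLeft ℤ (g x)) (B y o α) = B y o (g' x * α) := by
            ext v
            simp [hB, hg']
          rw [e]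
          refine Submodule.mem_sup_right (Submodule.mem_iSup_of_mem y
            (Submodule.apply_mem_map₂ _ ho (A'.mul_mem (Algebra.subset_adjoin ⟨x, rfl⟩) hα)))
      exact fun t ht => hle ht
    have hAT : ∀ y ∈ Algebra.adjoin ℤ (Set.range g), ∀ t ∈ N ⊔ M, y * t ∈ N ⊔ M := by
      intro y hy
      induction hy using Algebra.adjoin_induction with
      | mem y hy =>
        obtain ⟨x, rfl⟩ := hy
        exact hgT x
      | algebraMap r =>
        intro t ht
        rw [← Algebra.smul_def]
        exact Submodule.smul_mem _ _ ht
      | add y z _ _ hy hz =>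
        intro t ht
        rw [add_mul]
        exact Submodule.add_mem _ (hy t ht) (hz t ht)
      | mul y z _ _ hy hz =>
        intro t ht
        rw [mul_assoc]
        exact hy _ (hz t ht)
    have hle : Subalgebra.toSubmodule (Algebra.adjoin ℤ (Set.range g)) ≤ N ⊔ M := by
      intro y hy
      have := hAT y hy 1 h1T
      rwa [mul_one] at this
    have : IsNoetherian ℤ ↥(N ⊔ M) := isNoetherian_of_fg_of_noetherian _ hT
    exact Module.Finite.of_injective (Submodule.inclusion hle) (Submodule.inclusion_injective hle)

end Pool.Agent.Helper95.TL
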